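import Pool.Agent.R295.HM.CondExp

/-!
# MP_035205_an: a contractive idempotent onto a ternary subspace need not extend

Let `E = B = C_b(ℝ)`, `F` the closed ternary subspace of odd functions and
`P f (t) = (f t - f (-t)) / 2`, a contractive idempotent of `E` onto `F`. Suppose that `P` were the
`(2,1)`-corner of a blockwise conditional expectation `Φ`; let `e = Φ₁₁(1)`, an element of
`C_F = closed span ⟨F, F⟩`, so that `e 0 = 0`. For `t > 0` let `g` be an odd continuous function
with `|g| ≤ 1` and `g t = 1`, and let `c = g^* g ∈ C_F`. Then `‖2 c - 1‖ ≤ 1`, hence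
`‖2 c - e‖ ≤ 1` and `|2 - e t| ≤ 1`. This contradicts `e t → 0`.
-/

set_option autoImplicit false

open Pool.Agent.R295.HM
open scoped BoundedContinuousFunction

namespace Pool.Agent.Results.MP_035205_an.NotExtend

/-- the reflection `f ↦ (t ↦ f (-t))` -/
noncomputable def refl (f : ℝ →ᵇ ℂ) : ℝ →ᵇ ℂ :=
  f.compContinuous ⟨fun t => -t, continuous_neg⟩

lemma refl_apply (f : ℝ →ᵇ ℂ) (t : ℝ) : refl f t = f (-t) := rfl

/-- the odd functions -/
noncomputable def odd : Submodule ℂ (ℝ →ᵇ ℂ) where
  carrier := {f | ∀ t, f (-t) = - f t}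
  add_mem' {f g} hf hg t := by
    simp only [BoundedContinuousFunction.coe_add, Pi.add_apply]
    rw [hf t, hg t]; ring
  zero_mem' t := by simp
  smul_mem' c f hf t := by
    simp only [BoundedContinuousFunction.coe_smul]
    rw [hf t, smul_neg]

lemma mem_odd {f : ℝ →ᵇ ℂ} : f ∈ odd ↔ ∀ t, f (-t) = - f t := Iff.rfl

/-- the projection onto the odd functions -/
noncomputable def oddPart : (ℝ →ᵇ ℂ) →ₗ[ℂ] (ℝ →ᵇ ℂ) where
  toFun f := (1 / 2 : ℂ) • (f - refl f)
  map_add' f g := by
    ext t
    simp only [BoundedContinuousFunction.coe_smul, BoundedContinuousFunction.coe_sub,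
      BoundedContinuousFunction.coe_add, Pi.add_apply, Pi.sub_apply, refl_apply, smul_eq_mul]
    ring
  map_smul' c f := by
    ext t
    simp only [BoundedContinuousFunction.coe_smul, BoundedContinuousFunction.coe_sub,
      Pi.sub_apply, refl_apply, smul_eq_mul, RingHom.id_apply]
    ring

lemma oddPart_apply (f : ℝ →ᵇ ℂ) (t : ℝ) : oddPart f t = (f t - f (-t)) / 2 := by
  change (1 / 2 : ℂ) • (f t - f (-t)) = _
  rw [smul_eq_mul]; ring

/-- the odd function `s ↦ max (-1) (min 1 (s / t))`, with values in `[-1, 1]` -/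
noncomputable def clampFun (t : ℝ) : ℝ →ᵇ ℂ :=
  BoundedContinuousFunction.ofNormedAddCommGroup
    (fun s => ((max (-1) (min 1 (s / t)) : ℝ) : ℂ)) (by fun_prop) 1 (by
      intro s
      rw [Complex.norm_real, Real.norm_eq_abs, abs_le]
      exact ⟨le_max_left _ _, max_le (by norm_num) (min_le_left _ _)⟩)

lemma clampFun_apply (t s : ℝ) : clampFun t s = ((max (-1) (min 1 (s / t)) : ℝ) : ℂ) := rfl

lemma clampFun_odd (t : ℝ) : clampFun t ∈ odd := by
  intro s
  rw [clampFun_apply, clampFun_apply, ← Complex.ofReal_neg]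
  congr 1
  rw [neg_div]
  rcases le_total (s / t) (-1) with h | h
  · rw [min_eq_right (a := (1 : ℝ)) (b := s / t) (by linarith), max_eq_left h,
      min_eq_left (by linarith), max_eq_right (by norm_num)]
    norm_num
  · rcases le_total (s / t) 1 with h' | h'
    · rw [min_eq_right h', max_eq_right h, min_eq_right (by linarith), max_eq_right (by linarith)]
    · rw [min_eq_left h', max_eq_right (a := (-1 : ℝ)) (b := 1) (by norm_num),
        min_eq_right (by linarith), max_eq_left (by linarith)]

/-- **Negative answer**: a contractive linear idempotent `P` of a Hilbert module `E` onto a closed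
ternary subspace `F` which is not the `(2,1)`-corner of a blockwise conditional expectation. -/
theorem result :
    ∃ (B E : Type) (_ : NonUnitalCStarAlgebra B) (_ : NormedAddCommGroup E) (_ : NormedSpace ℂ E)
      (_ : CompleteSpace E) (H : HilbertModule B E) (F : Submodule ℂ E) (P : E →ₗ[ℂ] E),
      H.IsTernary F ∧ (∀ x, P x ∈ F) ∧ (∀ x ∈ F, P x = x) ∧ (∀ x, ‖P x‖ ≤ ‖x‖) ∧
      ¬ ∃ Φ : (B × E →ₗ[ℂ] B × E) → (B × E →ₗ[ℂ] B × E), H.IsBlockCondExp F Φ ∧
        ∀ y : E, Φ (H.block 0 0 y 0) = H.block 0 0 (P y) 0 := by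
  refine ⟨ℝ →ᵇ ℂ, ℝ →ᵇ ℂ, inferInstance, inferInstance, inferInstance, inferInstance,
    HilbertModule.self (ℝ →ᵇ ℂ), odd, oddPart, ⟨?_, ?_⟩, ?_, ?_, ?_, ?_⟩
  · have h1 : ((odd : Submodule ℂ (ℝ →ᵇ ℂ)) : Set (ℝ →ᵇ ℂ)) =
        ⋂ t : ℝ, {f | f (-t) = - f t} := by
      ext f
      simp [mem_odd]
    rw [h1]
    refine isClosed_iInter fun t => isClosed_eq ?_ ?_
    · exact (BoundedContinuousFunction.evalCLM ℂ (-t)).continuous
    · exact (BoundedContinuousFunction.evalCLM ℂ t).continuous.neg
  · intro x hx y hy z hz t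
    simp only [HilbertModule.self_act, HilbertModule.self_ip, BoundedContinuousFunction.coe_mul,
      Pi.mul_apply, BoundedContinuousFunction.star_apply]
    rw [hx t, hy t, hz t, star_neg]
    ring
  · intro f t
    rw [oddPart_apply, oddPart_apply, neg_neg]
    ring
  · intro f hf
    ext t
    rw [oddPart_apply, hf t]
    ring
  · intro f
    rw [BoundedContinuousFunction.norm_le (norm_nonneg _)]
    intro t
    rw [oddPart_apply, norm_div]
    have h1 : ‖f t - f (-t)‖ ≤ ‖f‖ + ‖f‖ :=
      (norm_sub_le _ _).trans (add_le_add (f.norm_coe_le_norm _) (f.norm_coe_le_norm _))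
    have h2 : ‖(2 : ℂ)‖ = 2 := by norm_num
    rw [h2]
    linarith
  · rintro ⟨Φ, hΦ, hΦP⟩
    set H := HilbertModule.self (ℝ →ᵇ ℂ) with hH
    have hone : (1 : ℝ →ᵇ ℂ) ∈ H.coef Set.univ := by
      have h := H.mem_coef (F := Set.univ) (x := (1 : ℝ →ᵇ ℂ)) (y := 1) (Set.mem_univ _)
        (Set.mem_univ _)
      rwa [hH, HilbertModule.self_ip, star_one, one_mul] at h
    obtain ⟨e, he, hΦe⟩ := hΦ.corner₁₁ 1 hone
    have he0 : e 0 = 0 := by
      have hcl : IsClosed {f : ℝ →ᵇ ℂ | f 0 = 0} :=
        isClosed_eq (BoundedContinuousFunction.evalCLM ℂ 0).continuous continuous_const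
      have hsub : H.coef odd ≤ (LinearMap.ker
          ((BoundedContinuousFunction.evalCLM ℂ (0 : ℝ) : (ℝ →ᵇ ℂ) →L[ℂ] ℂ) :
            (ℝ →ᵇ ℂ) →ₗ[ℂ] ℂ)) := by
        apply Submodule.topologicalClosure_minimal
        · rw [Submodule.span_le]
          rintro _ ⟨x, hx, y, hy, rfl⟩
          have hx0 : x 0 = 0 := by
            have := hx 0
            rw [neg_zero] at this
            exact CharZero.eq_neg_self_iff.1 this
          change (star x * y) 0 = 0
          rw [BoundedContinuousFunction.coe_mul, Pi.mul_apply,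
            BoundedContinuousFunction.star_apply, hx0, star_zero, zero_mul]
        · exact hcl
      exact hsub he
    have key : ∀ t : ℝ, 0 < t → ‖2 - e t‖ ≤ 1 := by
      intro t ht
      set g := clampFun t with hg
      have hgo : g ∈ odd := clampFun_odd t
      set c : ℝ →ᵇ ℂ := star g * g with hc
      have hcF : c ∈ H.coef odd := H.mem_coef hgo hgo
      have hcU : c ∈ H.coef Set.univ := H.mem_coef (Set.mem_univ _) (Set.mem_univ _)
      have h0 : (0 : ℝ →ᵇ ℂ) ∈ (odd : Set (ℝ →ᵇ ℂ)) := odd.zero_mem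
      have h0' : (0 : ℝ →ᵇ ℂ) ∈ (Set.univ : Set (ℝ →ᵇ ℂ)) := Set.mem_univ _
      have e1 : H.block ((2 : ℂ) • c - 1) 0 0 0 =
          (2 : ℂ) • H.block c 0 0 0 + (-1 : ℂ) • H.block 1 0 0 0 := by
        apply LinearMap.ext
        rintro ⟨v, z⟩
        rw [LinearMap.add_apply, LinearMap.smul_apply, LinearMap.smul_apply,
          HilbertModule.block_apply, HilbertModule.block_apply, HilbertModule.block_apply]
        ext1
        · simp only [H.zero_ip, add_zero, Prod.fst_add, Prod.smul_fst, sub_mul, smul_mul_assoc,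
            one_mul]
          rw [neg_one_smul, sub_eq_add_neg]
        · simp [H.zero_act]
      have e2 : Φ (H.block ((2 : ℂ) • c - 1) 0 0 0) = H.block ((2 : ℂ) • c - e) 0 0 0 := by
        rw [e1, hΦ.add _ ?_ _ ?_, hΦ.smul _ _ (H.block_mem_link₁₁ h0' hcU),
          hΦ.smul _ _ (H.block_mem_link₁₁ h0' hone), hΦe,
          hΦ.idem _ (H.block_mem_link₁₁ h0 hcF)]
        · apply LinearMap.ext
          rintro ⟨v, z⟩
          rw [LinearMap.add_apply, LinearMap.smul_apply, LinearMap.smul_apply,
            HilbertModule.block_apply, HilbertModule.block_apply, HilbertModule.block_apply]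
          ext1
          · simp only [H.zero_ip, add_zero, Prod.fst_add, Prod.smul_fst, sub_mul, smul_mul_assoc]
            rw [neg_one_smul, sub_eq_add_neg]
          · simp [H.zero_act]
        · have : (2 : ℂ) • H.block c 0 0 0 = H.block ((2 : ℂ) • c) 0 0 0 := by
            apply LinearMap.ext
            rintro ⟨v, z⟩
            rw [LinearMap.smul_apply, HilbertModule.block_apply, HilbertModule.block_apply]
            ext1
            · simp only [H.zero_ip, add_zero, Prod.smul_fst, smul_mul_assoc]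
            · simp [H.zero_act]
          rw [this]
          exact H.block_mem_link₁₁ h0' (Submodule.smul_mem _ _ hcU)
        · have : (-1 : ℂ) • H.block (1 : ℝ →ᵇ ℂ) 0 0 0 = H.block ((-1 : ℂ) • 1) 0 0 0 := by
            apply LinearMap.ext
            rintro ⟨v, z⟩
            rw [LinearMap.smul_apply, HilbertModule.block_apply, HilbertModule.block_apply]
            ext1
            · simp only [H.zero_ip, add_zero, Prod.smul_fst, smul_mul_assoc]
            · simp [H.zero_act]
          rw [this]
          exact H.block_mem_link₁₁ h0' (Submodule.smul_mem _ _ hone)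
      have hc_apply : ∀ s, c s = (((max (-1) (min 1 (s / t))) ^ 2 : ℝ) : ℂ) := by
        intro s
        rw [hc, BoundedContinuousFunction.coe_mul, Pi.mul_apply,
          BoundedContinuousFunction.star_apply, hg, clampFun_apply]
        rw [Complex.star_def, Complex.conj_ofReal, ← Complex.ofReal_mul, sq]
      have hnorm : ‖(2 : ℂ) • c - 1‖ ≤ 1 := by
        rw [BoundedContinuousFunction.norm_le zero_le_one]
        intro s
        rw [BoundedContinuousFunction.coe_sub, Pi.sub_apply, BoundedContinuousFunction.coe_smul]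
        simp only []
        rw [hc_apply, BoundedContinuousFunction.coe_one, Pi.one_apply, smul_eq_mul]
        have : (2 : ℂ) * (((max (-1) (min 1 (s / t))) ^ 2 : ℝ) : ℂ) - 1 =
            ((2 * (max (-1) (min 1 (s / t))) ^ 2 - 1 : ℝ) : ℂ) := by push_cast; ring
        rw [this, Complex.norm_real, Real.norm_eq_abs, abs_le]
        have h1 : -1 ≤ max (-1) (min 1 (s / t)) := le_max_left _ _
        have h2 : max (-1) (min 1 (s / t)) ≤ 1 := max_le (by norm_num) (min_le_left _ _)
        constructor
        · nlinarith [sq_nonneg (max (-1) (min 1 (s / t)))]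
        · nlinarith
      have hle : H.NormLE (H.block ((2 : ℂ) • c - 1) 0 0 0) 1 := by
        rintro ⟨v, z⟩
        rw [HilbertModule.block_apply, H.zero_ip, H.zero_act, add_zero, zero_add, one_mul]
        change H.colNorm (_, 0) ≤ _
        rw [H.colNorm_zero_right]
        calc ‖((2 : ℂ) • c - 1) * v‖ ≤ ‖(2 : ℂ) • c - 1‖ * ‖v‖ := norm_mul_le _ _
          _ ≤ 1 * ‖v‖ := by gcongr
          _ = ‖v‖ := one_mul _
          _ ≤ H.colNorm (v, z) := H.norm_fst_le_colNorm (v, z)
      have hmem : H.block ((2 : ℂ) • c - 1) 0 0 0 ∈ H.link Set.univ :=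
        H.block_mem_link₁₁ h0' (Submodule.sub_mem _ (Submodule.smul_mem _ _ hcU) hone)
      have h3 := hΦ.contr _ hmem 1 zero_le_one hle ((1 : ℝ →ᵇ ℂ), 0)
      rw [e2, HilbertModule.block_apply, H.zero_ip, H.zero_act, add_zero, zero_add, one_mul,
        mul_one, H.colNorm_zero_right] at h3
      change H.colNorm (_, 0) ≤ _ at h3
      rw [H.colNorm_zero_right, norm_one] at h3
      have h4 := ((2 : ℂ) • c - e).norm_coe_le_norm t
      have h5 : ((2 : ℂ) • c - e) t = 2 - e t := by
        rw [BoundedContinuousFunction.coe_sub, Pi.sub_apply, BoundedContinuousFunction.coe_smul]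
        simp only []
        rw [hc_apply, div_self ht.ne']
        simp
      rw [h5] at h4
      exact h4.trans h3
    have hlim : Filter.Tendsto (fun t : ℝ => ‖2 - e t‖) (nhdsWithin 0 (Set.Ioi 0))
        (nhds ‖2 - e 0‖) := by
      have : Continuous fun t : ℝ => ‖2 - e t‖ := (continuous_const.sub e.continuous).norm
      exact (this.tendsto 0).mono_left nhdsWithin_le_nhds
    have h6 : ‖2 - e 0‖ ≤ 1 := by
      refine le_of_tendsto hlim ?_
      filter_upwards [self_mem_nhdsWithin] with t ht
      exact key t ht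
    rw [he0, sub_zero] at h6
    norm_num at h6

end Pool.Agent.Results.MP_035205_an.NotExtend
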